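import Mathlib

set_option autoImplicit false
open Set Filter Topology
open scoped ContDiff

namespace Pool.Agent.TH991.LW

/-- J1: the polar formula for `Q = f_xx - f_yy + 2 i f_xy`. -/
def St_polar : Prop :=
  ∀ (f : ℂ → ℝ) (ε : ℝ) (Q : ℂ → ℂ), 0 < ε → ContDiffOn ℝ ∞ f (Metric.ball (0 : ℂ) ε) →
    (∀ z : ℂ, Q z =
      ((iteratedFDeriv ℝ 2 f z ![(1 : ℂ), 1] - iteratedFDeriv ℝ 2 f z ![Complex.I, Complex.I] : ℝ) : ℂ)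
        + 2 * ((iteratedFDeriv ℝ 2 f z ![(1 : ℂ), Complex.I] : ℝ) : ℂ) * Complex.I) →
    ∀ (l : ℂ →L[ℝ] ℝ) (a a1 a2 b b1 b2 g g1 g2 : ℝ → ℝ),
      (∀ r ∈ Ioo 0 ε, HasDerivAt a (a1 r) r ∧ HasDerivAt a1 (a2 r) r ∧
        HasDerivAt b (b1 r) r ∧ HasDerivAt b1 (b2 r) r) →
      (∀ t : ℝ, HasDerivAt g (g1 t) t ∧ HasDerivAt g1 (g2 t) t) →
      (∀ r ∈ Ioo 0 ε, ∀ t : ℝ, f ((r : ℂ) * Complex.exp ((t : ℂ) * Complex.I)) =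
        l ((r : ℂ) * Complex.exp ((t : ℂ) * Complex.I)) + b r + a r * g t) →
      ∀ r ∈ Ioo 0 ε, ∀ t : ℝ, Q ((r : ℂ) * Complex.exp ((t : ℂ) * Complex.I)) =
        Complex.exp ((2 * t : ℝ) * Complex.I) *
          ((((a2 r - a1 r / r) * g t + (b2 r - b1 r / r) - a r / r ^ 2 * g2 t : ℝ) : ℂ) +
            ((2 * (a1 r / r - a r / r ^ 2) * g1 t : ℝ) : ℂ) * Complex.I)

/-- J3: normal form of a separable function. -/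
def St_normal : Prop :=
  ∀ (f : ℂ → ℝ) (ε : ℝ), 0 < ε → ContDiffOn ℝ ∞ f (Metric.ball (0 : ℂ) ε) →
    iteratedFDeriv ℝ 2 f 0 ![(1 : ℂ), 1] = iteratedFDeriv ℝ 2 f 0 ![Complex.I, Complex.I] →
    iteratedFDeriv ℝ 2 f 0 ![(1 : ℂ), Complex.I] = 0 →
    ∀ (l : ℂ →L[ℝ] ℝ) (a b g : ℝ → ℝ),
      (∀ r ∈ Ioo 0 ε, ∀ t : ℝ, f ((r : ℂ) * Complex.exp ((t : ℂ) * Complex.I)) =
        l ((r : ℂ) * Complex.exp ((t : ℂ) * Complex.I)) + b r + a r * g t) →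
      ∃ (l' : ℂ →L[ℝ] ℝ) (a a1 a2 b b1 b2 g g1 g2 : ℝ → ℝ),
        (∀ r ∈ Ioo 0 ε, HasDerivAt a (a1 r) r ∧ HasDerivAt a1 (a2 r) r ∧
          HasDerivAt b (b1 r) r ∧ HasDerivAt b1 (b2 r) r) ∧
        (∀ t : ℝ, HasDerivAt g (g1 t) t ∧ HasDerivAt g1 (g2 t) t) ∧
        (∀ r ∈ Ioo 0 ε, ∀ t : ℝ, f ((r : ℂ) * Complex.exp ((t : ℂ) * Complex.I)) =
          l' ((r : ℂ) * Complex.exp ((t : ℂ) * Complex.I)) + b r + a r * g t) ∧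
        Tendsto (fun r => a r / r) (𝓝[>] (0 : ℝ)) (𝓝 0) ∧
        Tendsto (fun r => a1 r / r) (𝓝[>] (0 : ℝ)) (𝓝 0)

/-- J4: winding numbers of a continuous nonvanishing family. -/
def St_lift : Prop :=
  ∀ (ε : ℝ) (P : ℝ → ℝ → ℂ), 0 < ε →
    ContinuousOn (fun p : ℝ × ℝ => P p.1 p.2) (Ioo 0 ε ×ˢ univ) →
    (∀ r ∈ Ioo 0 ε, ∀ t, P r t ≠ 0) →
    (∀ r ∈ Ioo 0 ε, ∀ t, P r (t + 2 * Real.pi) = P r t) →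
    ∃ k : ℤ,
      (∀ r ∈ Ioo 0 ε, ∃ ψ : ℝ → ℝ, Continuous ψ ∧
        (∀ t, P r t = ((‖P r t‖ : ℝ) : ℂ) * Complex.exp ((ψ t : ℂ) * Complex.I)) ∧
        ∀ t, ψ (t + 2 * Real.pi) = ψ t + 2 * Real.pi * k) ∧
      ∀ r ∈ Ioo 0 ε, ∀ θ : ℝ → ℝ, ContinuousOn θ (Icc 0 (2 * Real.pi)) →
        (∀ t ∈ Icc 0 (2 * Real.pi), P r t = ((‖P r t‖ : ℝ) : ℂ) * Complex.exp ((θ t : ℂ) * Complex.I)) →
        θ (2 * Real.pi) - θ 0 = 2 * Real.pi * k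

/-- J5: a good radius. -/
def St_radius : Prop :=
  ∀ (ε : ℝ) (a a1 a2 : ℝ → ℝ), 0 < ε →
    (∀ r ∈ Ioo 0 ε, HasDerivAt a (a1 r) r ∧ HasDerivAt a1 (a2 r) r) →
    Tendsto (fun r => a r / r) (𝓝[>] (0 : ℝ)) (𝓝 0) →
    Tendsto (fun r => a1 r / r) (𝓝[>] (0 : ℝ)) (𝓝 0) →
    (∃ r ∈ Ioo 0 ε, a1 r / r = a r / r ^ 2) ∨
    (∃ r ∈ Ioo 0 ε, 0 < a r ∧ a r / r ^ 2 < a1 r / r ∧ 0 ≤ a2 r - a1 r / r) ∨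
    (∃ r ∈ Ioo 0 ε, a r < 0 ∧ a1 r / r < a r / r ^ 2 ∧ a2 r - a1 r / r ≤ 0)

/-- J2: no positive turn. -/
def St_turn : Prop :=
  ∀ (g g1 g2 ψ ρ : ℝ → ℝ) (A B C D : ℝ), 0 ≤ A → 0 < C → 0 < D →
    (∀ t, HasDerivAt g (g1 t) t) → (∀ t, HasDerivAt g1 (g2 t) t) → Continuous ψ →
    (∀ t, 0 < ρ t) → (∀ t, A * g t + B - C * g2 t = ρ t * Real.cos (ψ t)) →
    (∀ t, D * g1 t = ρ t * Real.sin (ψ t)) →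
    ∀ s t : ℝ, s < t → ψ s = -(Real.pi / 2) → ψ t = 3 * (Real.pi / 2) → False

end Pool.Agent.TH991.LW
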