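import Mathlib
import Pool.Agent.TH991.LW.Stmts

/-! Winding numbers of a continuous nonvanishing family. -/

set_option autoImplicit false
open Set Filter Topology
open scoped ContDiff

namespace Pool.Agent.TH991.LW

/-- continuous functions with integer values are constant on connected sets -/
theorem lift_int_const {X : Type*} [TopologicalSpace X] {U : Set X} (hU : IsPreconnected U)
    {f : X → ℝ} (hf : ContinuousOn f U) (hint : ∀ x ∈ U, ∃ n : ℤ, f x = n) {x y : X}
    (hx : x ∈ U) (hy : y ∈ U) : f x = f y := by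
  have key : ∀ x ∈ U, ∀ y ∈ U, ¬ f x < f y := by
    intro x hx y hy hlt
    have hc := (hU.image f hf).ordConnected
    obtain ⟨n, hn⟩ := hint x hx
    obtain ⟨m, hm⟩ := hint y hy
    have h1 : (n : ℝ) + 1 / 2 ∈ f '' U := by
      apply hc.out (mem_image_of_mem f hx) (mem_image_of_mem f hy)
      rw [hn, hm] at hlt
      rw [hn, hm]
      have h3 : n < m := by exact_mod_cast hlt
      have h2 : (n : ℝ) + 1 ≤ m := by exact_mod_cast h3
      constructor <;> linarith
    obtain ⟨z, hz, hz'⟩ := h1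
    obtain ⟨l, hl⟩ := hint z hz
    rw [hl] at hz'
    have h4 : (2 * l : ℝ) = 2 * n + 1 := by linarith
    have h3 : 2 * l = 2 * n + 1 := by exact_mod_cast h4
    omega
  rcases lt_trichotomy (f x) (f y) with h | h | h
  · exact absurd h (key x hx y hy)
  · exact h
  · exact absurd h (key y hy x hx)

/-- two arguments of the same nonzero number -/
theorem lift_arg {ρ a b : ℝ} (hρ : ρ ≠ 0) (h : (ρ : ℂ) * Complex.exp ((a : ℂ) * Complex.I) =
    (ρ : ℂ) * Complex.exp ((b : ℂ) * Complex.I)) : ∃ n : ℤ, (a - b) / (2 * Real.pi) = n := by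
  have h1 := mul_left_cancel₀ (by exact_mod_cast hρ : (ρ : ℂ) ≠ 0) h
  obtain ⟨n, hn⟩ := Complex.exp_eq_exp_iff_exists_int.1 h1
  refine ⟨n, ?_⟩
  have h2 := congrArg Complex.im hn
  simp at h2
  have hpi := Real.pi_pos
  rw [div_eq_iff (by positivity)]
  linarith

theorem lift : St_lift := by
  intro ε P hε hc h0 hp
  have hpi := Real.pi_pos
  obtain ⟨U, hUdef⟩ : ∃ U : Set (ℝ × ℝ), U = Ioo 0 ε ×ˢ univ := ⟨_, rfl⟩
  rw [← hUdef] at hc
  have hUc : Convex ℝ U := by
    rw [hUdef]
    exact (convex_Ioo 0 ε).prod convex_univ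
  have hUo : IsOpen U := by
    rw [hUdef]
    exact isOpen_Ioo.prod isOpen_univ
  have hmem : ∀ r ∈ Ioo 0 ε, ∀ t : ℝ, (r, t) ∈ U := by
    intro r hr t
    rw [hUdef]
    exact ⟨hr, mem_univ _⟩
  have hne : U.Nonempty := ⟨(ε / 2, 0), hmem _ ⟨by linarith, by linarith⟩ 0⟩
  have hsc : IsSimplyConnected U := by
    have := hUc.contractibleSpace hne
    unfold IsSimplyConnected
    infer_instance
  obtain ⟨f, hf, hfe⟩ := Complex.exists_continuousOn_eqOn_exp_comp hsc hUo hc (by
    rintro ⟨q, hq, hq0⟩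
    rw [hUdef] at hq
    exact h0 q.1 hq.1 q.2 hq0)
  -- the argument
  have hP : ∀ r ∈ Ioo 0 ε, ∀ t : ℝ,
      P r t = ((‖P r t‖ : ℝ) : ℂ) * Complex.exp (((f (r, t)).im : ℂ) * Complex.I) := by
    intro r hr t
    have h1 : Complex.exp (f (r, t)) = P r t := hfe (hmem r hr t)
    rw [← h1, Complex.norm_exp, Complex.ofReal_exp, ← Complex.exp_add, Complex.re_add_im]
  have hfr : ∀ r ∈ Ioo 0 ε, Continuous fun t : ℝ => f (r, t) := by
    intro r hr
    rw [continuous_iff_continuousAt]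
    intro t
    have h1 : ContinuousAt f (r, t) := hf.continuousAt (hUo.mem_nhds (hmem r hr t))
    exact ContinuousAt.comp (f := fun t : ℝ => (r, t)) (g := f) h1 (by fun_prop)
  have hψ : ∀ r ∈ Ioo 0 ε, Continuous fun t : ℝ => (f (r, t)).im := fun r hr =>
    Complex.continuous_im.comp (hfr r hr)
  -- the winding number
  obtain ⟨N, hN⟩ : ∃ N : ℝ × ℝ → ℝ, N = fun q =>
    ((f (q.1, q.2 + 2 * Real.pi)).im - (f q).im) / (2 * Real.pi) := ⟨_, rfl⟩
  have hNint : ∀ q ∈ U, ∃ n : ℤ, N q = n := by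
    intro q hq
    have hr : q.1 ∈ Ioo 0 ε := by
      rw [hUdef] at hq
      exact hq.1
    have h1 := hP q.1 hr (q.2 + 2 * Real.pi)
    have h2 := hP q.1 hr q.2
    rw [hp q.1 hr q.2] at h1
    rw [hN]
    exact lift_arg (norm_ne_zero_iff.2 (h0 q.1 hr q.2)) (h1.symm.trans h2)
  have hNc : ContinuousOn N U := by
    rw [hN]
    refine ContinuousOn.div_const (ContinuousOn.sub ?_ ?_) _
    · refine Complex.continuous_im.comp_continuousOn ?_
      refine hf.comp (by fun_prop) ?_
      intro q hq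
      rw [hUdef] at hq
      exact hmem q.1 hq.1 _
    · exact Complex.continuous_im.comp_continuousOn hf
  obtain ⟨q0, hq0⟩ := hne
  obtain ⟨k, hk⟩ := hNint q0 hq0
  have hkk : ∀ r ∈ Ioo 0 ε, ∀ t : ℝ,
      (f (r, t + 2 * Real.pi)).im = (f (r, t)).im + 2 * Real.pi * k := by
    intro r hr t
    have h1 := lift_int_const hUc.isPreconnected hNc hNint (hmem r hr t) hq0
    rw [hk, hN] at h1
    simp only at h1
    rw [div_eq_iff (by positivity)] at h1
    linarith
  refine ⟨k, fun r hr => ⟨fun t => (f (r, t)).im, hψ r hr, hP r hr, hkk r hr⟩, ?_⟩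
  intro r hr θ hθ hθP
  have h1 := lift_int_const (U := Icc 0 (2 * Real.pi))
    (f := fun t => (θ t - (f (r, t)).im) / (2 * Real.pi)) isPreconnected_Icc
    ((hθ.sub (hψ r hr).continuousOn).div_const _) (fun t ht =>
      lift_arg (norm_ne_zero_iff.2 (h0 r hr t)) ((hθP t ht).symm.trans (hP r hr t)))
    (x := 2 * Real.pi) (y := 0) ⟨by positivity, le_rfl⟩ ⟨le_rfl, by positivity⟩
  have h2 := hkk r hr 0
  rw [zero_add] at h2
  rw [div_left_inj' (by positivity)] at h1
  linarith

end Pool.Agent.TH991.LW
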