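import Mathlib
import Pool.Agent.TH991.LW.Stmts

set_option autoImplicit false
open Set Filter Topology
open scoped ContDiff

namespace Pool.Agent.TH991.LW

theorem Polar_deriv_e (t : ℝ) : HasDerivAt (fun t : ℝ => Complex.exp ((t : ℂ) * Complex.I))
    (Complex.I * Complex.exp ((t : ℂ) * Complex.I)) t := by
  have h := ((hasDerivAt_id t).ofReal_comp.mul_const Complex.I).cexp
  refine h.congr_deriv ?_
  simp [mul_comm]

theorem Polar_deriv_r (e : ℂ) (r : ℝ) : HasDerivAt (fun r : ℝ => (r : ℂ) * e) e r := by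
  have h := (hasDerivAt_id r).ofReal_comp.mul_const e
  refine h.congr_deriv ?_
  simp

theorem Polar_mem {r ε : ℝ} (hr : r ∈ Ioo 0 ε) (t : ℝ) :
    (r : ℂ) * Complex.exp ((t : ℂ) * Complex.I) ∈ Metric.ball (0 : ℂ) ε := by
  rw [mem_ball_zero_iff, norm_mul, Complex.norm_exp_ofReal_mul_I, mul_one, Complex.norm_real,
    Real.norm_of_nonneg hr.1.le]
  exact hr.2

theorem polar : St_polar := by
  intro f ε Q hε hf hQ l a a1 a2 b b1 b2 g g1 g2 hab hg hsep r hr t
  -- derivatives
  have hC : ∀ z ∈ Metric.ball (0 : ℂ) ε, ContDiffAt ℝ ∞ f z := fun z hz =>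
    hf.contDiffAt (Metric.isOpen_ball.mem_nhds hz)
  have hF : ∀ z ∈ Metric.ball (0 : ℂ) ε, HasFDerivAt f (fderiv ℝ f z) z := fun z hz =>
    ((hC z hz).differentiableAt (by simp)).hasFDerivAt
  have hG : ∀ z ∈ Metric.ball (0 : ℂ) ε,
      HasFDerivAt (fderiv ℝ f) (fderiv ℝ (fderiv ℝ f) z) z := fun z hz => by
    have h1 : ContDiffAt ℝ 1 (fderiv ℝ f) z := (hC z hz).fderiv_right (by
      norm_num; exact WithTop.coe_le_coe.2 le_top)
    exact (h1.differentiableAt (by simp)).hasFDerivAt
  -- first derivative in the radius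
  have A1 : ∀ r ∈ Ioo 0 ε, ∀ t : ℝ,
      fderiv ℝ f ((r : ℂ) * Complex.exp ((t : ℂ) * Complex.I)) (Complex.exp ((t : ℂ) * Complex.I)) =
        l (Complex.exp ((t : ℂ) * Complex.I)) + b1 r + a1 r * g t := by
    intro r hr t
    have h1 := (hF _ (Polar_mem hr t)).comp_hasDerivAt r
      (Polar_deriv_r (Complex.exp ((t : ℂ) * Complex.I)) r)
    have h2 : HasDerivAt (fun r : ℝ => l ((r : ℂ) * Complex.exp ((t : ℂ) * Complex.I)) + b r +
        a r * g t) (l (Complex.exp ((t : ℂ) * Complex.I)) + b1 r + a1 r * g t) r :=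
      ((l.hasFDerivAt.comp_hasDerivAt r
        (Polar_deriv_r (Complex.exp ((t : ℂ) * Complex.I)) r)).add (hab r hr).2.2.1).add
        ((hab r hr).1.mul_const (g t))
    refine h1.unique (h2.congr_of_eventuallyEq ?_)
    filter_upwards [Ioo_mem_nhds hr.1 hr.2] with x hx
    exact hsep x hx t
  -- first derivative in the angle
  have A2 : ∀ r ∈ Ioo 0 ε, ∀ t : ℝ,
      fderiv ℝ f ((r : ℂ) * Complex.exp ((t : ℂ) * Complex.I))
        ((r : ℂ) * (Complex.I * Complex.exp ((t : ℂ) * Complex.I))) =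
        l ((r : ℂ) * (Complex.I * Complex.exp ((t : ℂ) * Complex.I))) + a r * g1 t := by
    intro r hr t
    have h1 := (hF _ (Polar_mem hr t)).comp_hasDerivAt t ((Polar_deriv_e t).const_mul (r : ℂ))
    have h2 : HasDerivAt (fun t : ℝ => l ((r : ℂ) * Complex.exp ((t : ℂ) * Complex.I)) + b r +
        a r * g t) (l ((r : ℂ) * (Complex.I * Complex.exp ((t : ℂ) * Complex.I))) + a r * g1 t) t := by
      have := ((l.hasFDerivAt.comp_hasDerivAt t ((Polar_deriv_e t).const_mul (r : ℂ))).add_const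
        (b r)).add ((hg t).1.const_mul (a r))
      exact this
    refine h1.unique (h2.congr_of_eventuallyEq ?_)
    filter_upwards with x
    exact hsep r hr x
  set z : ℂ := (r : ℂ) * Complex.exp ((t : ℂ) * Complex.I) with hz
  set e1 : ℂ := Complex.exp ((t : ℂ) * Complex.I) with he1
  have hzm : z ∈ Metric.ball (0 : ℂ) ε := Polar_mem hr t
  set G := fderiv ℝ (fderiv ℝ f) z with hGdef
  have hr0 : r ≠ 0 := hr.1.ne'
  -- second derivatives
  have B1 : G e1 e1 = b2 r + a2 r * g t := by
    have h1 := ((hG z hzm).comp_hasDerivAt r (Polar_deriv_r e1 r)).clm_apply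
      (hasDerivAt_const r e1)
    have h2 : HasDerivAt (fun r : ℝ => l e1 + b1 r + a1 r * g t) (b2 r + a2 r * g t) r := by
      have := ((hab r hr).2.2.2.const_add (l e1)).add ((hab r hr).2.1.mul_const (g t))
      exact this
    have h3 := h1.unique (h2.congr_of_eventuallyEq (by
      filter_upwards [Ioo_mem_nhds hr.1 hr.2] with x hx
      exact A1 x hx t))
    simpa using h3
  have B2 : G ((r : ℂ) * (Complex.I * e1)) ((r : ℂ) * (Complex.I * e1)) +
      fderiv ℝ f z (-z) = l (-z) + a r * g2 t := by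
    have h0 : HasDerivAt (fun t : ℝ => (r : ℂ) * (Complex.I * Complex.exp ((t : ℂ) * Complex.I)))
        (-z) t := by
      have := ((Polar_deriv_e t).const_mul Complex.I).const_mul (r : ℂ)
      refine this.congr_deriv ?_
      rw [hz, ← mul_assoc Complex.I Complex.I, Complex.I_mul_I]
      ring
    have h1 := ((hG z hzm).comp_hasDerivAt t ((Polar_deriv_e t).const_mul (r : ℂ))).clm_apply h0
    have h2 : HasDerivAt (fun t : ℝ =>
        l ((r : ℂ) * (Complex.I * Complex.exp ((t : ℂ) * Complex.I))) + a r * g1 t)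
        (l (-z) + a r * g2 t) t :=
      (l.hasFDerivAt.comp_hasDerivAt t h0).add ((hg t).2.const_mul (a r))
    exact h1.unique (h2.congr_of_eventuallyEq (by
      filter_upwards with x
      exact A2 r hr x))
  have B3 : G ((r : ℂ) * (Complex.I * e1)) e1 + fderiv ℝ f z (Complex.I * e1) =
      l (Complex.I * e1) + a1 r * g1 t := by
    have h1 := ((hG z hzm).comp_hasDerivAt t ((Polar_deriv_e t).const_mul (r : ℂ))).clm_apply
      (Polar_deriv_e t)
    have h2 : HasDerivAt (fun t : ℝ =>
        l (Complex.exp ((t : ℂ) * Complex.I)) + b1 r + a1 r * g t)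
        (l (Complex.I * e1) + a1 r * g1 t) t :=
      ((l.hasFDerivAt.comp_hasDerivAt t (Polar_deriv_e t)).add_const (b1 r)).add
        ((hg t).1.const_mul (a1 r))
    exact h1.unique (h2.congr_of_eventuallyEq (by
      filter_upwards with x
      exact A1 r hr x))
  have A1' := A1 r hr t
  have A2' := A2 r hr t
  set F := fderiv ℝ f z with hFdef
  set e2 : ℂ := Complex.I * e1 with he2
  have sm : ∀ (x : ℂ), (r : ℂ) * x = r • x := fun x => by rw [Complex.real_smul]
  have hzr : z = r • e1 := by rw [hz, sm]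
  rw [hzr] at B2
  rw [sm] at A2' B2 B3
  simp only [map_neg, map_smul, ContinuousLinearMap.smul_apply, smul_eq_mul] at A2' B2 B3
  -- the two combinations
  have hFe2 : F e2 = l e2 + a r / r * g1 t := by
    have : r * (F e2 - l e2) = a r * g1 t := by linarith
    field_simp
    linarith
  have hM : G e2 e1 = (a1 r / r - a r / r ^ 2) * g1 t := by
    rw [hFe2] at B3
    field_simp at B3 ⊢
    linarith
  have hP2 : G e2 e2 = (b1 r + a1 r * g t) / r + a r / r ^ 2 * g2 t := by
    have hFe1 : F e1 = l e1 + b1 r + a1 r * g t := A1'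
    rw [hFe1] at B2
    field_simp
    linarith
  have hsymm : G e1 e2 = G e2 e1 := by
    have := (hC z hzm).isSymmSndFDerivAt (n := ∞) (by
      simp only [minSmoothness_of_isRCLikeNormedField]
      exact WithTop.coe_le_coe.2 le_top)
    exact this e1 e2
  -- the basis
  have hone : (1 : ℂ) = Real.cos t • e1 - Real.sin t • e2 := by
    rw [he2, he1, Complex.real_smul, Complex.real_smul, Complex.exp_mul_I]
    push_cast
    have h1 := Complex.sin_sq_add_cos_sq (t : ℂ)
    have h2 := Complex.I_sq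
    linear_combination -h1 + (Complex.sin (t : ℂ)) ^ 2 * h2
  have hI : Complex.I = Real.sin t • e1 + Real.cos t • e2 := by
    rw [he2, he1, Complex.real_smul, Complex.real_smul, Complex.exp_mul_I]
    push_cast
    have h1 := Complex.sin_sq_add_cos_sq (t : ℂ)
    have h2 := Complex.I_sq
    linear_combination -Complex.I * h1 - (Complex.sin (t : ℂ)) * (Complex.cos (t : ℂ)) * h2
  have g11 : G 1 1 = Real.cos t ^ 2 * G e1 e1 - 2 * (Real.cos t * Real.sin t) * G e2 e1 +
      Real.sin t ^ 2 * G e2 e2 := by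
    rw [hone]
    simp only [map_sub, map_smul, ContinuousLinearMap.sub_apply, ContinuousLinearMap.smul_apply,
      smul_eq_mul]
    rw [hsymm]; ring
  have gII : G Complex.I Complex.I = Real.sin t ^ 2 * G e1 e1 +
      2 * (Real.cos t * Real.sin t) * G e2 e1 + Real.cos t ^ 2 * G e2 e2 := by
    rw [hI]
    simp only [map_add, map_smul, ContinuousLinearMap.add_apply, ContinuousLinearMap.smul_apply,
      smul_eq_mul]
    rw [hsymm]; ring
  have g1I : G 1 Complex.I = Real.cos t * Real.sin t * (G e1 e1 - G e2 e2) +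
      (Real.cos t ^ 2 - Real.sin t ^ 2) * G e2 e1 := by
    rw [hI]
    nth_rewrite 1 [hone]
    simp only [map_sub, map_add, map_smul, ContinuousLinearMap.sub_apply,
      ContinuousLinearMap.smul_apply, smul_eq_mul]
    rw [hsymm]; ring
  have k1 : G 1 1 - G Complex.I Complex.I = (Real.cos t ^ 2 - Real.sin t ^ 2) *
      (G e1 e1 - G e2 e2) - 4 * (Real.cos t * Real.sin t) * G e2 e1 := by
    rw [g11, gII]; ring
  have k2 : G e1 e1 - G e2 e2 =
      (a2 r - a1 r / r) * g t + (b2 r - b1 r / r) - a r / r ^ 2 * g2 t := by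
    rw [B1, hP2]; ring
  have k3 : 2 * (a1 r / r - a r / r ^ 2) * g1 t = 2 * G e2 e1 := by
    rw [hM]; ring
  rw [k3, ← k2, hQ]
  simp only [iteratedFDeriv_two_apply, Matrix.cons_val_zero, Matrix.cons_val_one]
  change (((G 1 1 - G Complex.I Complex.I : ℝ) : ℂ)) + 2 * ((G 1 Complex.I : ℝ) : ℂ) * Complex.I = _
  rw [k1, g1I]
  rw [Complex.exp_mul_I, ← Complex.ofReal_cos, ← Complex.ofReal_sin, Real.cos_two_mul',
    Real.sin_two_mul]
  generalize G e1 e1 - G e2 e2 = P
  generalize G e2 e1 = M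
  generalize Real.cos t = c
  generalize Real.sin t = s
  push_cast
  linear_combination (-4 * (c : ℂ) * (s : ℂ) * (M : ℂ)) * Complex.I_sq

end Pool.Agent.TH991.LW
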